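import Pool.Agent.LSG.Stmts

set_option autoImplicit false

open MeasureTheory Set Topology

namespace Pool.Agent.LSG.H3

theorem spl : SplStmt := by
  intro E φ hE hφ hpos hfib
  by_contra hcon
  have key : ∀ D : Set K, MeasurableSet D → 0 < mu (E ∩ φ ⁻¹' D) → mu (E \ φ ⁻¹' D) = 0 := by
    intro D hD h1
    by_contra h2
    exact hcon ⟨D, hD, h1, pos_iff_ne_zero.mpr h2⟩
  have hn : ∀ n : ℕ, ∃ t : ZMod 2, mu (E ∩ {x | φ x n ≠ t}) = 0 := by
    intro n
    have hD : MeasurableSet {y : K | y n = 0} := by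
      have h0 : Measurable fun y : K => y n := measurable_pi_apply n
      exact h0 (measurableSet_singleton (0 : ZMod 2))
    by_cases h1 : mu (E ∩ φ ⁻¹' {y : K | y n = 0}) = 0
    · refine ⟨1, ?_⟩
      refine measure_mono_null ?_ h1
      rintro x ⟨hx, hx2⟩
      refine ⟨hx, ?_⟩
      have h3 : ∀ t : ZMod 2, t ≠ 1 → t = 0 := by decide
      exact h3 _ hx2
    · refine ⟨0, ?_⟩
      refine measure_mono_null ?_ (key _ hD (pos_iff_ne_zero.mpr h1))
      rintro x ⟨hx, hx2⟩
      exact ⟨hx, hx2⟩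
  choose y hy using hn
  have hsub : E ⊆ (E ∩ φ ⁻¹' {y}) ∪ ⋃ n, E ∩ {x | φ x n ≠ y n} := by
    intro x hx
    by_cases h : φ x = y
    · left
      exact ⟨hx, h⟩
    · right
      have h2 : ∃ n, φ x n ≠ y n := by
        by_contra h3
        push Not at h3
        exact h (funext h3)
      obtain ⟨n, hn⟩ := h2
      exact mem_iUnion.mpr ⟨n, hx, hn⟩
  have hzero : mu E = 0 :=
    measure_mono_null hsub (measure_union_null (hfib y) (measure_iUnion_null hy))
  exact absurd hzero hpos.ne'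

end Pool.Agent.LSG.H3
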